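import Pool.Agent.Helper87.RP.Defs

/-! Module C5 of MP_4e034d_co: balanced sets avoiding a given small set. -/

namespace Pool.Agent.Helper37.RP

open Finset Pool.Agent.Helper87.RP

variable {V : Type}

/-- The statement of module C4. -/
def StC4 : Prop :=
  ∀ {V : Type} [Fintype V] [DecidableEq V] {s : V → V → ℝ} (_ : Sg s) {S W : Finset V} {k : ℕ}
    (_ : Idx s S k) (_ : W ⊆ S) (_ : W.card = k) {v v' : V} (_ : v ∈ S \ W)
    (_ : v' ∈ S \ W)
    (_ : ∀ (t : Finset V) (e : V → ℝ), t ⊆ S \ W → Bal s e t → k + 1 ≤ t.card → v ∈ t ∨ v' ∈ t)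
    (a b : ℕ) (_ : a + b = k),
    2 ^ a ≤ ((S \ W).filter fun u => s v u * s v' u * s v v' = 1).card ∨
      2 ^ b ≤ ((S \ W).filter fun u => s v u * s v' u * s v v' = -1).card

/-- Module C5, first part, from C4. -/
theorem avoid_one (hC4 : StC4) [Fintype V] [DecidableEq V] {s : V → V → ℝ} (hs : Sg s)
    {S Q : Finset V} {k : ℕ}
    (h : Idx s S k) (hQ : Q ⊆ S) (hq : Q.card ≤ k + 1) (hS : k + 1 ≤ S.card)
    (hn : S.card < k + 2 ^ k) :
    ∃ (t : Finset V) (e : V → ℝ), t ⊆ S \ Q ∧ Bal s e t ∧ k + 1 ≤ t.card := by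
  by_contra hcon
  push Not at hcon
  obtain ⟨Q', hQQ', hQ'S, hQ'⟩ := Finset.exists_subsuperset_card_eq hQ hq hS
  obtain ⟨v, hv⟩ : Q'.Nonempty := by
    rw [← Finset.card_pos]; omega
  have hWc : (Q'.erase v).card = k := by
    rw [Finset.card_erase_of_mem hv, hQ']; rfl
  have hWS : Q'.erase v ⊆ S := (Finset.erase_subset _ _).trans hQ'S
  have hvS : v ∈ S \ Q'.erase v := by simp [hQ'S hv]
  have hT : ∀ (t : Finset V) (e : V → ℝ), t ⊆ S \ Q'.erase v → Bal s e t → k + 1 ≤ t.card →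
      v ∈ t ∨ v ∈ t := by
    intro t e ht hb hc
    by_contra hvt
    rw [or_self] at hvt
    refine absurd hc (not_le.2 (hcon t e ?_ hb))
    intro u hu
    have h1 := Finset.mem_sdiff.1 (ht hu)
    rw [Finset.mem_sdiff]
    refine ⟨h1.1, fun h2 => h1.2 ?_⟩
    rw [Finset.mem_erase]
    exact ⟨fun h3 => hvt (h3 ▸ hu), hQQ' h2⟩
  have hcard : (S \ Q'.erase v).card = S.card - k := by
    rw [Finset.card_sdiff_of_subset hWS, hWc]
  rcases hC4 hs h hWS hWc hvS hvS hT k 0 (by simp) with h1 | h1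
  · have h2 := Finset.card_filter_le (S \ Q'.erase v) (fun u => s v u * s v u * s v v = 1)
    omega
  · have h2 : ((S \ Q'.erase v).filter fun u => s v u * s v u * s v v = -1) = ∅ := by
      rw [Finset.filter_eq_empty_iff]
      intro u _ h3
      rw [hs.diag v] at h3
      nlinarith [mul_self_nonneg (s v u)]
    rw [h2] at h1
    simp at h1

/-- Module C5, second part, from C4. -/
theorem avoid_two (hC4 : StC4) [Fintype V] [DecidableEq V] {s : V → V → ℝ} (hs : Sg s)
    {S Q : Finset V} {k : ℕ}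
    (hk : 1 ≤ k) (h : Idx s S k) (hQ : Q ⊆ S) (hq : Q.card ≤ k + 2) (hS : k + 2 ≤ S.card)
    (hn : ∀ a < k, S.card < k + 2 ^ a + 2 ^ (k - 1 - a)) :
    ∃ (t : Finset V) (e : V → ℝ), t ⊆ S \ Q ∧ Bal s e t ∧ k + 1 ≤ t.card := by
  by_contra hcon
  push Not at hcon
  obtain ⟨Q', hQQ', hQ'S, hQ'⟩ := Finset.exists_subsuperset_card_eq hQ hq hS
  obtain ⟨v, hv, v', hv', hvv'⟩ : ∃ v ∈ Q', ∃ v' ∈ Q', v ≠ v' := by
    apply Finset.one_lt_card.1
    omega
  have hWc : ((Q'.erase v).erase v').card = k := by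
    rw [Finset.card_erase_of_mem (Finset.mem_erase.2 ⟨hvv'.symm, hv'⟩),
      Finset.card_erase_of_mem hv, hQ']; rfl
  have hWS : (Q'.erase v).erase v' ⊆ S :=
    ((Finset.erase_subset _ _).trans (Finset.erase_subset _ _)).trans hQ'S
  have hvS : v ∈ S \ (Q'.erase v).erase v' := by simp [hQ'S hv]
  have hvS' : v' ∈ S \ (Q'.erase v).erase v' := by simp [hQ'S hv']
  have hT : ∀ (t : Finset V) (e : V → ℝ), t ⊆ S \ (Q'.erase v).erase v' → Bal s e t →
      k + 1 ≤ t.card → v ∈ t ∨ v' ∈ t := by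
    intro t e ht hb hc
    by_contra hvt
    push Not at hvt
    refine absurd hc (not_le.2 (hcon t e ?_ hb))
    intro u hu
    have h1 := Finset.mem_sdiff.1 (ht hu)
    rw [Finset.mem_sdiff]
    refine ⟨h1.1, fun h2 => h1.2 ?_⟩
    rw [Finset.mem_erase, Finset.mem_erase]
    exact ⟨fun h3 => hvt.2 (h3 ▸ hu), fun h3 => hvt.1 (h3 ▸ hu), hQQ' h2⟩
  have hcard : (S \ (Q'.erase v).erase v').card = S.card - k := by
    rw [Finset.card_sdiff_of_subset hWS, hWc]
  set U := S \ (Q'.erase v).erase v' with hU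
  have hkey := hC4 hs h hWS hWc hvS hvS' hT
  rw [← hU] at hkey
  set p := (U.filter fun u => s v u * s v' u * s v v' = 1).card with hp
  set m := (U.filter fun u => s v u * s v' u * s v v' = -1).card with hm
  have hpm : p + m ≤ U.card := by
    rw [hp, hm, ← Finset.card_union_of_disjoint]
    · exact Finset.card_le_card (Finset.union_subset (Finset.filter_subset _ _)
        (Finset.filter_subset _ _))
    · rw [Finset.disjoint_filter]
      intro u _ h1 h2
      rw [h1] at h2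
      norm_num at h2
  have hp1 : 1 ≤ p := by
    rw [hp, Nat.one_le_iff_ne_zero, Ne, Finset.card_eq_zero, ← Ne, ← Finset.nonempty_iff_ne_empty]
    refine ⟨v, Finset.mem_filter.2 ⟨hvS, ?_⟩⟩
    rw [hs.diag v, hs.symm v' v]
    rcases hs.pm v v' with h1 | h1 <;> rw [h1] <;> norm_num
  have hScard : k ≤ S.card := by omega
  -- the largest exponent
  obtain ⟨a, hak, hap, hmax⟩ : ∃ a, a ≤ k ∧ 2 ^ a ≤ p ∧ (a < k → p < 2 ^ (a + 1)) := by
    refine ⟨Nat.findGreatest (fun a => 2 ^ a ≤ p) k, Nat.findGreatest_le k,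
      Nat.findGreatest_spec (P := fun a => 2 ^ a ≤ p) (n := k) (Nat.zero_le k)
        (by simpa using hp1), ?_⟩
    intro hlt
    by_contra hge
    push Not at hge
    have := Nat.le_findGreatest (P := fun a => 2 ^ a ≤ p) (n := k)
      (m := Nat.findGreatest (fun a => 2 ^ a ≤ p) k + 1) hlt hge
    omega
  rcases lt_or_eq_of_le hak with hlt | heq
  · have h1 := hmax hlt
    rcases hkey (a + 1) (k - 1 - a) (by omega) with h2 | h2
    · omega
    · have h3 := hn a hlt
      omega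
  · have h3 := hn (k - 1) (by omega)
    have h4 : 2 ^ k = 2 ^ (k - 1) + 2 ^ (k - 1) := by
      obtain ⟨j, rfl⟩ : ∃ j, k = j + 1 := ⟨k - 1, by omega⟩
      rw [Nat.add_sub_cancel, pow_succ]; ring
    have h5 : 1 ≤ 2 ^ (k - 1) := Nat.one_le_two_pow
    have h6 : k - 1 - (k - 1) = 0 := by omega
    rw [heq] at hap
    rw [h6, pow_zero] at h3
    omega

end Pool.Agent.Helper37.RP
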