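import Pool.Agent.Helper87.RP.Defs

/-! Module T2 of MP_4e034d_co: the odd barycentric coordinates. -/

namespace Pool.Agent.Helper37.RP

open Finset Pool.Agent.Helper87.RP

variable {V : Type}

/-- The statement of module T1. -/
def StT1 : Prop :=
  ∀ {d : ℕ} {A : Type} [TopologicalSpace A] (g : A → RPd d) (_ : Continuous g)
    (H : unitInterval × A → A) (_ : Continuous H) (a₀ : A) (_ : ∀ a, H (0, a) = a)
    (_ : ∀ a, H (1, a) = a₀),
    ∃ η : {p : A × Sph d // g p.1 = prj d p.2} → ℝ, Continuous η ∧ (∀ p, η p = 1 ∨ η p = -1) ∧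
      ∀ p q : {p : A × Sph d // g p.1 = prj d p.2}, p.1.1 = q.1.1 → p.1.2 = -q.1.2 →
        η p = -η q

/-- The contraction onto a vertex. -/
theorem contr_mem [Fintype V] [DecidableEq V] (K : AbstractSimplicialComplex V) (v : V)
    (t : unitInterval) (x : V → ℝ) (hx : x ∈ real K) (hv : 0 < x v) :
    (fun u => (1 - (t : ℝ)) * x u + (t : ℝ) * (if u = v then 1 else 0)) ∈ real K := by
  obtain ⟨h0, h1, f, hf, hs⟩ := hx
  have ht0 : (0 : ℝ) ≤ t := t.2.1
  have ht1 : (0 : ℝ) ≤ 1 - t := by linarith [t.2.2]
  refine ⟨?_, ?_, f, hf, ?_⟩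
  · intro u
    have := h0 u
    have h3 : (0 : ℝ) ≤ if u = v then 1 else 0 := by split_ifs <;> norm_num
    positivity
  · rw [Finset.sum_add_distrib, ← Finset.mul_sum, ← Finset.mul_sum, h1]
    simp
  · intro u hu
    by_cases huv : u = v
    · rw [huv]; exact hs v hv.ne'
    · apply hs
      intro h
      apply hu
      simp [h, huv]

theorem contr_pos (t : unitInterval) {y : ℝ} (hy : 0 < y) :
    0 < (1 - (t : ℝ)) * y + (t : ℝ) * 1 := by
  have ht0 : (0 : ℝ) ≤ t := t.2.1
  have ht1 : (0 : ℝ) ≤ 1 - t := by linarith [t.2.2]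
  rcases ht0.lt_or_eq with h | h
  · nlinarith [mul_nonneg ht1 hy.le]
  · rw [← h]; simpa using hy

/-- Module T2, from T1. -/
theorem exists_psi (hT1 : StT1) [Fintype V] {d : ℕ} (K : AbstractSimplicialComplex V)
    (h : real K ≃ₜ RPd d) (v : V) : ∃ ψ : Sph d → ℝ, Continuous ψ ∧ (∀ q, ψ (-q) = -ψ q) ∧
      ∀ q, |ψ q| = (h.symm (prj d q)).1 v := by
  classical
  have hnn : ∀ q, 0 ≤ (h.symm (prj d q)).1 v := fun q => (h.symm (prj d q)).2.1 v
  have hprj : ∀ q : Sph d, prj d (-q) = prj d q := fun q => prj_eq_iff.2 (Or.inr rfl)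
  have hcx : Continuous fun q : Sph d => (h.symm (prj d q)).1 v :=
    (continuous_apply v).comp
      (continuous_subtype_val.comp (h.symm.continuous.comp (continuous_prj d)))
  let g : {x : real K // 0 < x.1 v} → RPd d := fun x => h x.1
  have hg : Continuous g := h.continuous.comp continuous_subtype_val
  let H : unitInterval × {x : real K // 0 < x.1 v} → {x : real K // 0 < x.1 v} := fun p =>
    ⟨⟨fun u => (1 - (p.1 : ℝ)) * p.2.1.1 u + (p.1 : ℝ) * (if u = v then 1 else 0),
      contr_mem K v p.1 p.2.1.1 p.2.1.2 p.2.2⟩, by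
        have := contr_pos p.1 p.2.2
        simpa using this⟩
  have hH : Continuous H := by
    refine Continuous.subtype_mk (Continuous.subtype_mk (continuous_pi fun u => ?_) _) _
    have h1 : Continuous fun p : unitInterval × {x : real K // 0 < x.1 v} => (p.1 : ℝ) :=
      continuous_subtype_val.comp continuous_fst
    have h2 : Continuous fun p : unitInterval × {x : real K // 0 < x.1 v} => p.2.1.1 u :=
      (continuous_apply u).comp (continuous_subtype_val.comp
        (continuous_subtype_val.comp continuous_snd))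
    exact ((continuous_const.sub h1).mul h2).add (h1.mul continuous_const)
  have ha0 : (fun u => if u = v then (1 : ℝ) else 0) ∈ real K := by
    refine ⟨fun u => by dsimp only; split_ifs <;> norm_num, by simp, {v}, K.singleton_mem v, ?_⟩
    intro u hu
    simp at hu
    simp [hu]
  let a₀ : {x : real K // 0 < x.1 v} := ⟨⟨_, ha0⟩, by simp⟩
  obtain ⟨η, hη, hpm, hodd⟩ := hT1 g hg H hH a₀
    (by
      rintro ⟨⟨x, hx⟩, hv⟩
      apply Subtype.ext
      apply Subtype.ext
      funext u
      simp [H])
    (by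
      rintro ⟨⟨x, hx⟩, hv⟩
      apply Subtype.ext
      apply Subtype.ext
      funext u
      simp [H, a₀])
  -- the point over q
  let P : ∀ q : Sph d, 0 < (h.symm (prj d q)).1 v →
      {p : {x : real K // 0 < x.1 v} × Sph d // g p.1 = prj d p.2} := fun q hq =>
    ⟨(⟨h.symm (prj d q), hq⟩, q), by simp [g]⟩
  let ψ : Sph d → ℝ := fun q =>
    if hq : 0 < (h.symm (prj d q)).1 v then η (P q hq) * (h.symm (prj d q)).1 v else 0
  have habs : ∀ q, |ψ q| = (h.symm (prj d q)).1 v := by
    intro q
    by_cases hq : 0 < (h.symm (prj d q)).1 v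
    · simp only [ψ, dif_pos hq, abs_mul, abs_of_pos hq]
      rcases hpm (P q hq) with h1 | h1 <;> simp [h1]
    · simp only [ψ, dif_neg hq, abs_zero]
      exact le_antisymm (hnn q) (not_lt.1 hq)
  refine ⟨ψ, ?_, ?_, habs⟩
  · rw [continuous_iff_continuousAt]
    intro q
    by_cases hq : 0 < (h.symm (prj d q)).1 v
    · have hopen : IsOpen {q : Sph d | 0 < (h.symm (prj d q)).1 v} :=
        isOpen_lt continuous_const hcx
      have hon : ContinuousOn ψ {q : Sph d | 0 < (h.symm (prj d q)).1 v} := by
        rw [continuousOn_iff_continuous_domRestrict]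
        have heq : Set.domRestrict {q : Sph d | 0 < (h.symm (prj d q)).1 v} ψ =
            fun q => η (P q.1 q.2) * (h.symm (prj d q.1)).1 v := by
          funext q
          have hq2 : 0 < (h.symm (prj d q.1)).1 v := q.2
          change ψ q.1 = _
          simp only [ψ, dif_pos hq2]
        rw [heq]
        refine Continuous.mul (hη.comp ?_) (hcx.comp continuous_subtype_val)
        refine Continuous.subtype_mk (Continuous.prodMk ?_ continuous_subtype_val) _
        exact Continuous.subtype_mk (h.symm.continuous.comp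
          ((continuous_prj d).comp continuous_subtype_val)) _
      exact hon.continuousAt (hopen.mem_nhds hq)
    · have h0 : (h.symm (prj d q)).1 v = 0 := le_antisymm (not_lt.1 hq) (hnn q)
      have hψ0 : ψ q = 0 := by simp only [ψ, dif_neg hq]
      rw [ContinuousAt, hψ0, tendsto_zero_iff_norm_tendsto_zero]
      have : Filter.Tendsto (fun q : Sph d => (h.symm (prj d q)).1 v) (nhds q) (nhds 0) := by
        have := hcx.tendsto q
        rwa [h0] at this
      refine this.congr fun q' => ?_
      rw [Real.norm_eq_abs, habs]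
  · intro q
    by_cases hq : 0 < (h.symm (prj d q)).1 v
    · have hq' : 0 < (h.symm (prj d (-q))).1 v := by rwa [hprj]
      simp only [ψ, dif_pos hq, dif_pos hq']
      rw [hodd (P (-q) hq') (P q hq) (Subtype.ext (by simp only [P]; rw [hprj])) rfl]
      rw [hprj]
      ring
    · have hq' : ¬ 0 < (h.symm (prj d (-q))).1 v := by rwa [hprj]
      simp only [ψ, dif_neg hq, dif_neg hq', neg_zero]

end Pool.Agent.Helper37.RP
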